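import Pool.Agent.Helper61.LN.Goals

/-!
# Project LN, packet LN-GOOD

The torus knots of type (2, 3) and (2, 5) as 1-1-tangles: left and right closure, rotation,
orientations.
-/

set_option autoImplicit false

namespace Pool.Agent.Helper15.LN.GOOD

open Pool.Agent.Helper31.Sk Pool.Agent.Helper35.Skl Pool.Agent.Helper61.LN

theorem closeL3 : Iso 1 1 [(1, .cup), (0, .neg), (0, .neg), (0, .neg), (1, .cap)]
    [(0, .cup), (1, .neg), (1, .neg), (1, .neg), (0, .cap)] := by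
  refine iso_trans (w' := [(1, .cup), (0, .neg), (0, .neg), (0, .neg), (0, .neg), (0, .pos), (1, .cap)])
    (stq 4 (Or.inr (Elem.r2N 0)) rfl rfl rfl) ?_
  refine iso_trans (w' := [(1, .cup), (0, .neg), (0, .neg), (0, .neg), (0, .neg), (1, .neg), (0, .cap)])
    (stq 5 (Or.inr (Elem.capN 0)) rfl rfl rfl) ?_
  refine iso_trans (w' := [(1, .cup), (0, .neg), (0, .neg), (0, .neg), (0, .neg), (1, .neg), (0, .neg), (0, .cap)])
    (stq 6 (Or.inr (Elem.r1capN 0)) rfl rfl rfl) ?_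
  refine iso_trans (w' := [(1, .cup), (0, .neg), (0, .neg), (0, .neg), (1, .neg), (0, .neg), (1, .neg), (0, .cap)])
    (stq 4 (Or.inl (Elem.r3N 0)) rfl rfl rfl) ?_
  refine iso_trans (w' := [(1, .cup), (0, .neg), (0, .neg), (1, .neg), (0, .neg), (1, .neg), (1, .neg), (0, .cap)])
    (stq 3 (Or.inl (Elem.r3N 0)) rfl rfl rfl) ?_
  refine iso_trans (w' := [(1, .cup), (0, .neg), (1, .neg), (0, .neg), (1, .neg), (1, .neg), (1, .neg), (0, .cap)])
    (stq 2 (Or.inl (Elem.r3N 0)) rfl rfl rfl) ?_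
  refine iso_trans (w' := [(0, .cup), (1, .pos), (1, .neg), (0, .neg), (1, .neg), (1, .neg), (1, .neg), (0, .cap)])
    (stq 0 (Or.inr (Elem.cupP 0)) rfl rfl rfl) ?_
  refine iso_trans (w' := [(0, .cup), (0, .neg), (1, .neg), (1, .neg), (1, .neg), (0, .cap)])
    (stq 1 (Or.inl (Elem.r2P 1)) rfl rfl rfl) ?_
  exact stq 0 (Or.inl (Elem.r1cupN 0)) rfl rfl rfl

theorem rotCup3 : Iso 0 2 [(0, .cup), (1, .cup), (0, .neg), (0, .neg), (0, .neg), (1, .cap)]
    [(0, .cup), (1, .cup), (2, .neg), (2, .neg), (2, .neg), (1, .cap)] := by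
  refine iso_trans (w' := [(0, .cup), (0, .cup), (1, .pos), (0, .neg), (0, .neg), (1, .cap)])
    (stq 1 (Or.inr (Elem.cupP 0)) rfl rfl rfl) ?_
  refine iso_trans (w' := [(0, .cup), (2, .cup), (1, .pos), (0, .neg), (0, .neg), (1, .cap)])
    (stq 0 (Or.inr (Elem.comm 0 0 .cup .cup)) rfl rfl rfl) ?_
  refine iso_trans (w' := [(0, .cup), (1, .cup), (2, .neg), (0, .neg), (0, .neg), (1, .cap)])
    (stq 1 (Or.inr (Elem.cupN 1)) rfl rfl rfl) ?_
  refine iso_trans (w' := [(0, .cup), (1, .cup), (0, .neg), (2, .neg), (0, .neg), (1, .cap)])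
    (stq 2 (Or.inr (Elem.comm 0 0 .neg .neg)) rfl rfl rfl) ?_
  refine iso_trans (w' := [(0, .cup), (1, .cup), (0, .neg), (0, .neg), (2, .neg), (1, .cap)])
    (stq 3 (Or.inr (Elem.comm 0 0 .neg .neg)) rfl rfl rfl) ?_
  refine iso_trans (w' := [(0, .cup), (0, .cup), (1, .pos), (0, .neg), (2, .neg), (1, .cap)])
    (stq 1 (Or.inr (Elem.cupP 0)) rfl rfl rfl) ?_
  refine iso_trans (w' := [(0, .cup), (2, .cup), (1, .pos), (0, .neg), (2, .neg), (1, .cap)])
    (stq 0 (Or.inr (Elem.comm 0 0 .cup .cup)) rfl rfl rfl) ?_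
  refine iso_trans (w' := [(0, .cup), (1, .cup), (2, .neg), (0, .neg), (2, .neg), (1, .cap)])
    (stq 1 (Or.inr (Elem.cupN 1)) rfl rfl rfl) ?_
  refine iso_trans (w' := [(0, .cup), (1, .cup), (0, .neg), (2, .neg), (2, .neg), (1, .cap)])
    (stq 2 (Or.inr (Elem.comm 0 0 .neg .neg)) rfl rfl rfl) ?_
  refine iso_trans (w' := [(0, .cup), (0, .cup), (1, .pos), (2, .neg), (2, .neg), (1, .cap)])
    (stq 1 (Or.inr (Elem.cupP 0)) rfl rfl rfl) ?_
  refine iso_trans (w' := [(0, .cup), (2, .cup), (1, .pos), (2, .neg), (2, .neg), (1, .cap)])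
    (stq 0 (Or.inr (Elem.comm 0 0 .cup .cup)) rfl rfl rfl) ?_
  exact stq 1 (Or.inr (Elem.cupN 1)) rfl rfl rfl

theorem rotCap3 : Iso 2 0 [(1, .cup), (0, .neg), (0, .neg), (0, .neg), (1, .cap), (0, .cap)]
    [(1, .cup), (2, .neg), (2, .neg), (2, .neg), (1, .cap), (0, .cap)] := by
  refine iso_trans (w' := [(1, .cup), (0, .neg), (0, .neg), (1, .pos), (0, .cap), (0, .cap)])
    (stq 3 (Or.inr (Elem.capP 0)) rfl rfl rfl) ?_
  refine iso_trans (w' := [(1, .cup), (0, .neg), (0, .neg), (1, .pos), (2, .cap), (0, .cap)])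
    (stq 4 (Or.inl (Elem.comm 0 0 .cap .cap)) rfl rfl rfl) ?_
  refine iso_trans (w' := [(1, .cup), (0, .neg), (0, .neg), (2, .neg), (1, .cap), (0, .cap)])
    (stq 3 (Or.inr (Elem.capN 1)) rfl rfl rfl) ?_
  refine iso_trans (w' := [(1, .cup), (0, .neg), (2, .neg), (0, .neg), (1, .cap), (0, .cap)])
    (stq 2 (Or.inl (Elem.comm 0 0 .neg .neg)) rfl rfl rfl) ?_
  refine iso_trans (w' := [(1, .cup), (2, .neg), (0, .neg), (0, .neg), (1, .cap), (0, .cap)])
    (stq 1 (Or.inl (Elem.comm 0 0 .neg .neg)) rfl rfl rfl) ?_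
  refine iso_trans (w' := [(1, .cup), (2, .neg), (0, .neg), (1, .pos), (0, .cap), (0, .cap)])
    (stq 3 (Or.inr (Elem.capP 0)) rfl rfl rfl) ?_
  refine iso_trans (w' := [(1, .cup), (2, .neg), (0, .neg), (1, .pos), (2, .cap), (0, .cap)])
    (stq 4 (Or.inl (Elem.comm 0 0 .cap .cap)) rfl rfl rfl) ?_
  refine iso_trans (w' := [(1, .cup), (2, .neg), (0, .neg), (2, .neg), (1, .cap), (0, .cap)])
    (stq 3 (Or.inr (Elem.capN 1)) rfl rfl rfl) ?_
  refine iso_trans (w' := [(1, .cup), (2, .neg), (2, .neg), (0, .neg), (1, .cap), (0, .cap)])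
    (stq 2 (Or.inl (Elem.comm 0 0 .neg .neg)) rfl rfl rfl) ?_
  refine iso_trans (w' := [(1, .cup), (2, .neg), (2, .neg), (1, .pos), (0, .cap), (0, .cap)])
    (stq 3 (Or.inr (Elem.capP 0)) rfl rfl rfl) ?_
  refine iso_trans (w' := [(1, .cup), (2, .neg), (2, .neg), (1, .pos), (2, .cap), (0, .cap)])
    (stq 4 (Or.inl (Elem.comm 0 0 .cap .cap)) rfl rfl rfl) ?_
  exact stq 3 (Or.inr (Elem.capN 1)) rfl rfl rfl

theorem closeL5 : Iso 1 1 [(1, .cup), (0, .neg), (0, .neg), (0, .neg), (0, .neg), (0, .neg), (1, .cap)]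
    [(0, .cup), (1, .neg), (1, .neg), (1, .neg), (1, .neg), (1, .neg), (0, .cap)] := by
  refine iso_trans (w' := [(1, .cup), (0, .neg), (0, .neg), (0, .neg), (0, .neg), (0, .neg), (0, .neg), (0, .pos), (1, .cap)])
    (stq 6 (Or.inr (Elem.r2N 0)) rfl rfl rfl) ?_
  refine iso_trans (w' := [(1, .cup), (0, .neg), (0, .neg), (0, .neg), (0, .neg), (0, .neg), (0, .neg), (1, .neg), (0, .cap)])
    (stq 7 (Or.inr (Elem.capN 0)) rfl rfl rfl) ?_
  refine iso_trans (w' := [(1, .cup), (0, .neg), (0, .neg), (0, .neg), (0, .neg), (0, .neg), (0, .neg), (1, .neg), (0, .neg), (0, .cap)])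
    (stq 8 (Or.inr (Elem.r1capN 0)) rfl rfl rfl) ?_
  refine iso_trans (w' := [(1, .cup), (0, .neg), (0, .neg), (0, .neg), (0, .neg), (0, .neg), (1, .neg), (0, .neg), (1, .neg), (0, .cap)])
    (stq 6 (Or.inl (Elem.r3N 0)) rfl rfl rfl) ?_
  refine iso_trans (w' := [(1, .cup), (0, .neg), (0, .neg), (0, .neg), (0, .neg), (1, .neg), (0, .neg), (1, .neg), (1, .neg), (0, .cap)])
    (stq 5 (Or.inl (Elem.r3N 0)) rfl rfl rfl) ?_
  refine iso_trans (w' := [(1, .cup), (0, .neg), (0, .neg), (0, .neg), (1, .neg), (0, .neg), (1, .neg), (1, .neg), (1, .neg), (0, .cap)])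
    (stq 4 (Or.inl (Elem.r3N 0)) rfl rfl rfl) ?_
  refine iso_trans (w' := [(1, .cup), (0, .neg), (0, .neg), (1, .neg), (0, .neg), (1, .neg), (1, .neg), (1, .neg), (1, .neg), (0, .cap)])
    (stq 3 (Or.inl (Elem.r3N 0)) rfl rfl rfl) ?_
  refine iso_trans (w' := [(1, .cup), (0, .neg), (1, .neg), (0, .neg), (1, .neg), (1, .neg), (1, .neg), (1, .neg), (1, .neg), (0, .cap)])
    (stq 2 (Or.inl (Elem.r3N 0)) rfl rfl rfl) ?_
  refine iso_trans (w' := [(0, .cup), (1, .pos), (1, .neg), (0, .neg), (1, .neg), (1, .neg), (1, .neg), (1, .neg), (1, .neg), (0, .cap)])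
    (stq 0 (Or.inr (Elem.cupP 0)) rfl rfl rfl) ?_
  refine iso_trans (w' := [(0, .cup), (0, .neg), (1, .neg), (1, .neg), (1, .neg), (1, .neg), (1, .neg), (0, .cap)])
    (stq 1 (Or.inl (Elem.r2P 1)) rfl rfl rfl) ?_
  exact stq 0 (Or.inl (Elem.r1cupN 0)) rfl rfl rfl

theorem rotCup5 : Iso 0 2 [(0, .cup), (1, .cup), (0, .neg), (0, .neg), (0, .neg), (0, .neg), (0, .neg), (1, .cap)]
    [(0, .cup), (1, .cup), (2, .neg), (2, .neg), (2, .neg), (2, .neg), (2, .neg), (1, .cap)] := by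
  refine iso_trans (w' := [(0, .cup), (0, .cup), (1, .pos), (0, .neg), (0, .neg), (0, .neg), (0, .neg), (1, .cap)])
    (stq 1 (Or.inr (Elem.cupP 0)) rfl rfl rfl) ?_
  refine iso_trans (w' := [(0, .cup), (2, .cup), (1, .pos), (0, .neg), (0, .neg), (0, .neg), (0, .neg), (1, .cap)])
    (stq 0 (Or.inr (Elem.comm 0 0 .cup .cup)) rfl rfl rfl) ?_
  refine iso_trans (w' := [(0, .cup), (1, .cup), (2, .neg), (0, .neg), (0, .neg), (0, .neg), (0, .neg), (1, .cap)])
    (stq 1 (Or.inr (Elem.cupN 1)) rfl rfl rfl) ?_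
  refine iso_trans (w' := [(0, .cup), (1, .cup), (0, .neg), (2, .neg), (0, .neg), (0, .neg), (0, .neg), (1, .cap)])
    (stq 2 (Or.inr (Elem.comm 0 0 .neg .neg)) rfl rfl rfl) ?_
  refine iso_trans (w' := [(0, .cup), (1, .cup), (0, .neg), (0, .neg), (2, .neg), (0, .neg), (0, .neg), (1, .cap)])
    (stq 3 (Or.inr (Elem.comm 0 0 .neg .neg)) rfl rfl rfl) ?_
  refine iso_trans (w' := [(0, .cup), (1, .cup), (0, .neg), (0, .neg), (0, .neg), (2, .neg), (0, .neg), (1, .cap)])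
    (stq 4 (Or.inr (Elem.comm 0 0 .neg .neg)) rfl rfl rfl) ?_
  refine iso_trans (w' := [(0, .cup), (1, .cup), (0, .neg), (0, .neg), (0, .neg), (0, .neg), (2, .neg), (1, .cap)])
    (stq 5 (Or.inr (Elem.comm 0 0 .neg .neg)) rfl rfl rfl) ?_
  refine iso_trans (w' := [(0, .cup), (0, .cup), (1, .pos), (0, .neg), (0, .neg), (0, .neg), (2, .neg), (1, .cap)])
    (stq 1 (Or.inr (Elem.cupP 0)) rfl rfl rfl) ?_
  refine iso_trans (w' := [(0, .cup), (2, .cup), (1, .pos), (0, .neg), (0, .neg), (0, .neg), (2, .neg), (1, .cap)])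
    (stq 0 (Or.inr (Elem.comm 0 0 .cup .cup)) rfl rfl rfl) ?_
  refine iso_trans (w' := [(0, .cup), (1, .cup), (2, .neg), (0, .neg), (0, .neg), (0, .neg), (2, .neg), (1, .cap)])
    (stq 1 (Or.inr (Elem.cupN 1)) rfl rfl rfl) ?_
  refine iso_trans (w' := [(0, .cup), (1, .cup), (0, .neg), (2, .neg), (0, .neg), (0, .neg), (2, .neg), (1, .cap)])
    (stq 2 (Or.inr (Elem.comm 0 0 .neg .neg)) rfl rfl rfl) ?_
  refine iso_trans (w' := [(0, .cup), (1, .cup), (0, .neg), (0, .neg), (2, .neg), (0, .neg), (2, .neg), (1, .cap)])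
    (stq 3 (Or.inr (Elem.comm 0 0 .neg .neg)) rfl rfl rfl) ?_
  refine iso_trans (w' := [(0, .cup), (1, .cup), (0, .neg), (0, .neg), (0, .neg), (2, .neg), (2, .neg), (1, .cap)])
    (stq 4 (Or.inr (Elem.comm 0 0 .neg .neg)) rfl rfl rfl) ?_
  refine iso_trans (w' := [(0, .cup), (0, .cup), (1, .pos), (0, .neg), (0, .neg), (2, .neg), (2, .neg), (1, .cap)])
    (stq 1 (Or.inr (Elem.cupP 0)) rfl rfl rfl) ?_
  refine iso_trans (w' := [(0, .cup), (2, .cup), (1, .pos), (0, .neg), (0, .neg), (2, .neg), (2, .neg), (1, .cap)])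
    (stq 0 (Or.inr (Elem.comm 0 0 .cup .cup)) rfl rfl rfl) ?_
  refine iso_trans (w' := [(0, .cup), (1, .cup), (2, .neg), (0, .neg), (0, .neg), (2, .neg), (2, .neg), (1, .cap)])
    (stq 1 (Or.inr (Elem.cupN 1)) rfl rfl rfl) ?_
  refine iso_trans (w' := [(0, .cup), (1, .cup), (0, .neg), (2, .neg), (0, .neg), (2, .neg), (2, .neg), (1, .cap)])
    (stq 2 (Or.inr (Elem.comm 0 0 .neg .neg)) rfl rfl rfl) ?_
  refine iso_trans (w' := [(0, .cup), (1, .cup), (0, .neg), (0, .neg), (2, .neg), (2, .neg), (2, .neg), (1, .cap)])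
    (stq 3 (Or.inr (Elem.comm 0 0 .neg .neg)) rfl rfl rfl) ?_
  refine iso_trans (w' := [(0, .cup), (0, .cup), (1, .pos), (0, .neg), (2, .neg), (2, .neg), (2, .neg), (1, .cap)])
    (stq 1 (Or.inr (Elem.cupP 0)) rfl rfl rfl) ?_
  refine iso_trans (w' := [(0, .cup), (2, .cup), (1, .pos), (0, .neg), (2, .neg), (2, .neg), (2, .neg), (1, .cap)])
    (stq 0 (Or.inr (Elem.comm 0 0 .cup .cup)) rfl rfl rfl) ?_
  refine iso_trans (w' := [(0, .cup), (1, .cup), (2, .neg), (0, .neg), (2, .neg), (2, .neg), (2, .neg), (1, .cap)])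
    (stq 1 (Or.inr (Elem.cupN 1)) rfl rfl rfl) ?_
  refine iso_trans (w' := [(0, .cup), (1, .cup), (0, .neg), (2, .neg), (2, .neg), (2, .neg), (2, .neg), (1, .cap)])
    (stq 2 (Or.inr (Elem.comm 0 0 .neg .neg)) rfl rfl rfl) ?_
  refine iso_trans (w' := [(0, .cup), (0, .cup), (1, .pos), (2, .neg), (2, .neg), (2, .neg), (2, .neg), (1, .cap)])
    (stq 1 (Or.inr (Elem.cupP 0)) rfl rfl rfl) ?_
  refine iso_trans (w' := [(0, .cup), (2, .cup), (1, .pos), (2, .neg), (2, .neg), (2, .neg), (2, .neg), (1, .cap)])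
    (stq 0 (Or.inr (Elem.comm 0 0 .cup .cup)) rfl rfl rfl) ?_
  exact stq 1 (Or.inr (Elem.cupN 1)) rfl rfl rfl

theorem rotCap5 : Iso 2 0 [(1, .cup), (0, .neg), (0, .neg), (0, .neg), (0, .neg), (0, .neg), (1, .cap), (0, .cap)]
    [(1, .cup), (2, .neg), (2, .neg), (2, .neg), (2, .neg), (2, .neg), (1, .cap), (0, .cap)] := by
  refine iso_trans (w' := [(1, .cup), (0, .neg), (0, .neg), (0, .neg), (0, .neg), (1, .pos), (0, .cap), (0, .cap)])
    (stq 5 (Or.inr (Elem.capP 0)) rfl rfl rfl) ?_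
  refine iso_trans (w' := [(1, .cup), (0, .neg), (0, .neg), (0, .neg), (0, .neg), (1, .pos), (2, .cap), (0, .cap)])
    (stq 6 (Or.inl (Elem.comm 0 0 .cap .cap)) rfl rfl rfl) ?_
  refine iso_trans (w' := [(1, .cup), (0, .neg), (0, .neg), (0, .neg), (0, .neg), (2, .neg), (1, .cap), (0, .cap)])
    (stq 5 (Or.inr (Elem.capN 1)) rfl rfl rfl) ?_
  refine iso_trans (w' := [(1, .cup), (0, .neg), (0, .neg), (0, .neg), (2, .neg), (0, .neg), (1, .cap), (0, .cap)])
    (stq 4 (Or.inl (Elem.comm 0 0 .neg .neg)) rfl rfl rfl) ?_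
  refine iso_trans (w' := [(1, .cup), (0, .neg), (0, .neg), (2, .neg), (0, .neg), (0, .neg), (1, .cap), (0, .cap)])
    (stq 3 (Or.inl (Elem.comm 0 0 .neg .neg)) rfl rfl rfl) ?_
  refine iso_trans (w' := [(1, .cup), (0, .neg), (2, .neg), (0, .neg), (0, .neg), (0, .neg), (1, .cap), (0, .cap)])
    (stq 2 (Or.inl (Elem.comm 0 0 .neg .neg)) rfl rfl rfl) ?_
  refine iso_trans (w' := [(1, .cup), (2, .neg), (0, .neg), (0, .neg), (0, .neg), (0, .neg), (1, .cap), (0, .cap)])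
    (stq 1 (Or.inl (Elem.comm 0 0 .neg .neg)) rfl rfl rfl) ?_
  refine iso_trans (w' := [(1, .cup), (2, .neg), (0, .neg), (0, .neg), (0, .neg), (1, .pos), (0, .cap), (0, .cap)])
    (stq 5 (Or.inr (Elem.capP 0)) rfl rfl rfl) ?_
  refine iso_trans (w' := [(1, .cup), (2, .neg), (0, .neg), (0, .neg), (0, .neg), (1, .pos), (2, .cap), (0, .cap)])
    (stq 6 (Or.inl (Elem.comm 0 0 .cap .cap)) rfl rfl rfl) ?_
  refine iso_trans (w' := [(1, .cup), (2, .neg), (0, .neg), (0, .neg), (0, .neg), (2, .neg), (1, .cap), (0, .cap)])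
    (stq 5 (Or.inr (Elem.capN 1)) rfl rfl rfl) ?_
  refine iso_trans (w' := [(1, .cup), (2, .neg), (0, .neg), (0, .neg), (2, .neg), (0, .neg), (1, .cap), (0, .cap)])
    (stq 4 (Or.inl (Elem.comm 0 0 .neg .neg)) rfl rfl rfl) ?_
  refine iso_trans (w' := [(1, .cup), (2, .neg), (0, .neg), (2, .neg), (0, .neg), (0, .neg), (1, .cap), (0, .cap)])
    (stq 3 (Or.inl (Elem.comm 0 0 .neg .neg)) rfl rfl rfl) ?_
  refine iso_trans (w' := [(1, .cup), (2, .neg), (2, .neg), (0, .neg), (0, .neg), (0, .neg), (1, .cap), (0, .cap)])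
    (stq 2 (Or.inl (Elem.comm 0 0 .neg .neg)) rfl rfl rfl) ?_
  refine iso_trans (w' := [(1, .cup), (2, .neg), (2, .neg), (0, .neg), (0, .neg), (1, .pos), (0, .cap), (0, .cap)])
    (stq 5 (Or.inr (Elem.capP 0)) rfl rfl rfl) ?_
  refine iso_trans (w' := [(1, .cup), (2, .neg), (2, .neg), (0, .neg), (0, .neg), (1, .pos), (2, .cap), (0, .cap)])
    (stq 6 (Or.inl (Elem.comm 0 0 .cap .cap)) rfl rfl rfl) ?_
  refine iso_trans (w' := [(1, .cup), (2, .neg), (2, .neg), (0, .neg), (0, .neg), (2, .neg), (1, .cap), (0, .cap)])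
    (stq 5 (Or.inr (Elem.capN 1)) rfl rfl rfl) ?_
  refine iso_trans (w' := [(1, .cup), (2, .neg), (2, .neg), (0, .neg), (2, .neg), (0, .neg), (1, .cap), (0, .cap)])
    (stq 4 (Or.inl (Elem.comm 0 0 .neg .neg)) rfl rfl rfl) ?_
  refine iso_trans (w' := [(1, .cup), (2, .neg), (2, .neg), (2, .neg), (0, .neg), (0, .neg), (1, .cap), (0, .cap)])
    (stq 3 (Or.inl (Elem.comm 0 0 .neg .neg)) rfl rfl rfl) ?_
  refine iso_trans (w' := [(1, .cup), (2, .neg), (2, .neg), (2, .neg), (0, .neg), (1, .pos), (0, .cap), (0, .cap)])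
    (stq 5 (Or.inr (Elem.capP 0)) rfl rfl rfl) ?_
  refine iso_trans (w' := [(1, .cup), (2, .neg), (2, .neg), (2, .neg), (0, .neg), (1, .pos), (2, .cap), (0, .cap)])
    (stq 6 (Or.inl (Elem.comm 0 0 .cap .cap)) rfl rfl rfl) ?_
  refine iso_trans (w' := [(1, .cup), (2, .neg), (2, .neg), (2, .neg), (0, .neg), (2, .neg), (1, .cap), (0, .cap)])
    (stq 5 (Or.inr (Elem.capN 1)) rfl rfl rfl) ?_
  refine iso_trans (w' := [(1, .cup), (2, .neg), (2, .neg), (2, .neg), (2, .neg), (0, .neg), (1, .cap), (0, .cap)])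
    (stq 4 (Or.inl (Elem.comm 0 0 .neg .neg)) rfl rfl rfl) ?_
  refine iso_trans (w' := [(1, .cup), (2, .neg), (2, .neg), (2, .neg), (2, .neg), (1, .pos), (0, .cap), (0, .cap)])
    (stq 5 (Or.inr (Elem.capP 0)) rfl rfl rfl) ?_
  refine iso_trans (w' := [(1, .cup), (2, .neg), (2, .neg), (2, .neg), (2, .neg), (1, .pos), (2, .cap), (0, .cap)])
    (stq 6 (Or.inl (Elem.comm 0 0 .cap .cap)) rfl rfl rfl) ?_
  exact stq 5 (Or.inr (Elem.capN 1)) rfl rfl rfl


theorem orients3 (v : Word) (x y : Bool) : orients (TT 3 ++ v) [x, y] = orients v [x, y] := by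
  have e : TT 3 = [(1, .cup), (0, .neg), (0, .neg), (0, .neg), (1, .cap)] := rfl
  rw [e]
  cases x <;> cases y <;> simp [orients, passes]

theorem orients5 (v : Word) (x y : Bool) : orients (TT 5 ++ v) [x, y] = orients v [x, y] := by
  have e : TT 5 = [(1, .cup), (0, .neg), (0, .neg), (0, .neg), (0, .neg), (0, .neg), (1, .cap)] :=
    rfl
  rw [e]
  cases x <;> cases y <;> simp [orients, passes]

theorem knot_of {T : Word} (hT : Legal 1 T 1)
    (ho : ∀ (v : Word) (x y : Bool), orients (T ++ v) [x, y] = orients v [x, y]) (w : Word)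
    (hw : IsKnot w) : IsKnot (con T w) := by
  refine ⟨legal_con hT hw.1, ?_⟩
  have h2 := hw.2
  rcases w with _ | ⟨s, w⟩
  · simp [orients] at h2
  · obtain ⟨w', e, _⟩ := first_piece hw.1 (by simp)
    rw [e] at h2 ⊢
    simp only [con, orients, passes, List.map_cons, List.map_nil, List.sum_cons, List.sum_nil] at h2 ⊢
    rw [ho, ho]
    exact h2

theorem dir3 (x : Bool) : Dir [x] (TT 3) [x] := by
  have e : TT 3 = [(1, .cup), (0, .neg), (0, .neg), (0, .neg), (1, .cap)] := rfl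
  rw [e]
  cases x <;> simp [Dir, passes]

theorem dir5 (x : Bool) : Dir [x] (TT 5) [x] := by
  have e : TT 5 = [(1, .cup), (0, .neg), (0, .neg), (0, .neg), (0, .neg), (0, .neg), (1, .cap)] :=
    rfl
  rw [e]
  cases x <;> simp [Dir, passes]

theorem legal3 : Legal 1 (TT 3) 1 := lgt_of rfl

theorem legal5 : Legal 1 (TT 5) 1 := lgt_of rfl

theorem good3 : Good (TT 3) where
  legal := legal3
  cup := by
    have h : Iso 2 2 (shift 1 (TT 3)) [(1, .cup), (2, .neg), (2, .neg), (2, .neg), (1, .cap)] :=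
      iso_sh 1 0 closeL3
    have h2 := iso_left (u := [(0, .cup)]) (k := 0) (iso_symm h) (lgt_of rfl)
    exact iso_trans rotCup3 h2
  cap := by
    have h : Iso 2 2 (shift 1 (TT 3)) [(1, .cup), (2, .neg), (2, .neg), (2, .neg), (1, .cap)] :=
      iso_sh 1 0 closeL3
    have h2 := iso_right (v := [(0, .cap)]) (p := 0) (iso_symm h) (lgt_of rfl)
    exact iso_trans rotCap3 h2
  knot := knot_of legal3 orients3
  dir := dir3

theorem good5 : Good (TT 5) where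
  legal := legal5
  cup := by
    have h : Iso 2 2 (shift 1 (TT 5))
        [(1, .cup), (2, .neg), (2, .neg), (2, .neg), (2, .neg), (2, .neg), (1, .cap)] :=
      iso_sh 1 0 closeL5
    have h2 := iso_left (u := [(0, .cup)]) (k := 0) (iso_symm h) (lgt_of rfl)
    exact iso_trans rotCup5 h2
  cap := by
    have h : Iso 2 2 (shift 1 (TT 5))
        [(1, .cup), (2, .neg), (2, .neg), (2, .neg), (2, .neg), (2, .neg), (1, .cap)] :=
      iso_sh 1 0 closeL5
    have h2 := iso_right (v := [(0, .cap)]) (p := 0) (iso_symm h) (lgt_of rfl)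
    exact iso_trans rotCap5 h2
  knot := knot_of legal5 orients5
  dir := dir5

theorem t : S_GOOD := ⟨good3, good5⟩

end Pool.Agent.Helper15.LN.GOOD
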