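import Pool.Agent.Helper64.LN.GoalsB

/-! Packet LN-SIM (project LN of helper64). -/

open Topology Filter Set Metric UpperHalfPlane
open scoped MatrixGroups

namespace Pool.Agent.Helper15.LN

open Pool.Agent.Helper64.LN

lemma norm_sexp (s t : ℝ) (hs : 0 < s) :
    ‖(s : ℂ) * Complex.exp (2 * Real.pi * Complex.I * t)‖ = s := by
  have h : (2 * Real.pi * Complex.I * t : ℂ) = ((2 * Real.pi * t : ℝ) : ℂ) * Complex.I := by
    push_cast
    ring
  rw [h, norm_mul, Complex.norm_exp_ofReal_mul_I, mul_one, Complex.norm_real, Real.norm_eq_abs,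
    abs_of_pos hs]

lemma contW {W : ℝ → ℝ → ℍ}
    (h : ContinuousOn (fun q : ℝ × ℝ => W q.1 q.2) (univ ×ˢ Ioo (1 / 2) 2)) (s : ℝ)
    (hs : s ∈ Ioo (1 / 2 : ℝ) 2) : Continuous fun t => W t s := by
  have h1 : Continuous fun t : ℝ => ((t, s) : ℝ × ℝ) := by fun_prop
  exact h.comp_continuous h1 (fun t => ⟨mem_univ _, hs⟩)

lemma per_int {γ : ℍ ≃ₜ ℍ} {ω : C(ℝ, ℍ)} (h : ∀ t : ℝ, ω (t + 1) = γ (ω t)) (n : ℤ) :
    ω (n : ℝ) = (γ ^ n) (ω 0) := by
  induction n using Int.induction_on with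
  | zero => simp
  | succ n ih =>
    have h1 := h (n : ℝ)
    have e1 : (((n : ℤ) + 1 : ℤ) : ℝ) = (n : ℝ) + 1 := by push_cast; ring
    rw [e1, h1]
    have e2 : ω (n : ℝ) = (γ ^ (n : ℤ)) (ω 0) := by
      rw [← ih]
      push_cast
      rfl
    rw [e2, add_comm, zpow_add, zpow_one]
    rfl
  | pred n ih =>
    have h1 := h (-(n : ℝ) - 1)
    rw [sub_add_cancel] at h1
    have e1 : ((-(n : ℤ) - 1 : ℤ) : ℝ) = -(n : ℝ) - 1 := by push_cast; ring
    have e2 : ω (-(n : ℝ)) = (γ ^ (-(n : ℤ))) (ω 0) := by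
      rw [← ih]
      push_cast
      rfl
    rw [e1]
    apply γ.injective
    rw [← h1, e2]
    change _ = (γ * γ ^ (-(n : ℤ) - 1)) (ω 0)
    rw [← zpow_one_add]
    congr 2
    ring

theorem goalSIM.{v} (hCOL : GoalCOL.{v}) (hPRE : GoalPRE.{v}) (hL3 : GoalL3.{v}) :
    GoalSIM.{v} := by
  intro X _ _ p P u C K γ ω hc
  refine ⟨?_, ?_⟩
  · intro g hg
    obtain ⟨W, w1, w2, w3, w4, -, -⟩ := hCOL X p P u C K γ ω hc
    have i1 : (3 / 4 : ℝ) ∈ Ioo (1 / 2 : ℝ) 2 := by constructor <;> norm_num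
    have i2 : (7 / 8 : ℝ) ∈ Ioo (1 / 2 : ℝ) 2 := by constructor <;> norm_num
    have hsrc : ∀ (s t : ℝ), s ∈ Ioo (1 / 2 : ℝ) 2 →
        (s : ℂ) * Complex.exp (2 * Real.pi * Complex.I * t) ∈ C.source := by
      intro s t hs
      rw [hc.src]
      have h0 : 0 < s := lt_trans (by norm_num) hs.1
      change 1 / 2 < ‖_‖ ∧ ‖_‖ < 2
      rw [norm_sexp s t h0]
      exact hs
    apply not_Cr_of_disj ⟨fun t => W t (3 / 4), contW w1 _ i1⟩
      ⟨fun t => g (W t (7 / 8)), g.continuous.comp (contW w1 _ i2)⟩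
    · intro t
      exact w4 t _ i1
    · intro t
      change g (W (t + 1) (7 / 8)) = g (γ (g⁻¹ (g (W t (7 / 8)))))
      rw [w4 t _ i2]
      congr 2
      exact (g.symm_apply_apply _).symm
    · intro s t hst
      change g (W s (7 / 8)) = W t (3 / 4) at hst
      have h1 : u (g (W s (7 / 8))) = u (W s (7 / 8)) := deck_apply hg _
      rw [hst, w3 s _ i2, w3 t _ i1] at h1
      have h2 := C.injOn (hsrc _ _ i1) (hsrc _ _ i2) h1
      have h3 := congrArg norm h2
      rw [norm_sexp _ _ (by norm_num), norm_sexp _ _ (by norm_num)] at h3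
      norm_num at h3
  · intro h hh hcomm
    obtain ⟨hh', hh1, hh2⟩ := mem_deck.1 hh
    obtain ⟨gg, hg1, hg2⟩ := mem_deck.1 hc.deck
    have h1 : h (ω 0) ∈ ax γ := by
      have h2 := (ax_conj hh' gg (ω 0)).2 (by rw [← hg2]; exact hc.geo 0)
      rw [← hh2, ← hg2, hcomm, mul_inv_cancel_right] at h2
      exact h2
    rw [(hPRE X p P u C K γ ω hc).1] at h1
    obtain ⟨t, ht⟩ := h1
    have h3 : u (ω t) = u (ω 0) := by
      rw [ht]
      exact deck_apply hh _
    rw [hc.core, hc.core] at h3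
    have hsrc : ∀ t : ℝ, Complex.exp (2 * Real.pi * Complex.I * t) ∈ C.source := by
      intro t
      rw [hc.src]
      have := norm_sexp 1 t one_pos
      rw [Complex.ofReal_one, one_mul] at this
      change 1 / 2 < ‖_‖ ∧ ‖_‖ < 2
      rw [this]
      norm_num
    have h4 := C.injOn (hsrc t) (hsrc 0) h3
    rw [Complex.exp_eq_exp_iff_exists_int] at h4
    obtain ⟨n, hn⟩ := h4
    have h5 : (t : ℂ) = n := by
      have hpi : (2 * Real.pi * Complex.I : ℂ) ≠ 0 := Complex.two_pi_I_ne_zero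
      apply mul_left_cancel₀ hpi
      rw [hn]
      push_cast
      ring
    have h6 : t = n := by exact_mod_cast h5
    refine ⟨n, ?_⟩
    apply (hL3 X (insert p P) u hc.uni).2.1 h hh (γ ^ n) (zpow_mem hc.deck n) (ω 0)
    rw [← ht, h6]
    exact per_int hc.per n

end Pool.Agent.Helper15.LN
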