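import Pool.Agent.Helper64.LN.GoalsB

/-! Packet LN-SPC (project LN of helper64). -/

open Topology Filter Set Metric UpperHalfPlane
open scoped MatrixGroups

namespace Pool.Agent.Helper15.LN

open Pool.Agent.Helper64.LN

lemma sf_cont (g : SL(2, ℝ)) (σ : C(ℝ, ℍ)) : Continuous fun t => sf g (σ t) := by
  unfold sf
  have h1 : Continuous fun t => (σ t).re := UpperHalfPlane.continuous_re.comp σ.continuous
  have h2 : Continuous fun t => (σ t).im := UpperHalfPlane.continuous_im.comp σ.continuous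
  fun_prop

lemma base (g a : SL(2, ℝ)) (σ : C(ℝ, ℍ)) (ha : mh a ≠ 1) (h10 : a 1 0 = 0)
    (hμ : 1 ≤ |a 0 0|) (hg : g 1 0 ≠ 0) (hσ : ∀ t, σ (t + 1) = a • σ t)
    (hs : ∀ t, sf g (σ t) ≠ 0) : ∀ t, 0 < g 1 0 * sf g (σ t) := by
  have hdet := a.det_coe
  rw [Matrix.det_fin_two, h10] at hdet
  have hd : a 0 0 * a 1 1 = 1 := by linarith
  have hre : ∀ t, (σ (t + 1)).re = a 0 0 * (a 0 0 * (σ t).re + a 0 1) := by
    intro t
    obtain ⟨e1, e2⟩ := smul_eqs a (σ t)
    rw [h10] at e1 e2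
    rw [hσ t]
    linear_combination a 0 0 * e1 - (a • σ t).re * hd
  have him : ∀ t, (σ (t + 1)).im = a 0 0 ^ 2 * (σ t).im := by
    intro t
    obtain ⟨e1, e2⟩ := smul_eqs a (σ t)
    rw [h10] at e1 e2
    rw [hσ t]
    linear_combination a 0 0 * e2 - (a • σ t).im * hd
  intro t₀
  by_contra hneg
  have hneg0 : g 1 0 * sf g (σ t₀) < 0 :=
    lt_of_le_of_ne (not_lt.1 hneg) (mul_ne_zero hg (hs t₀))
  have hall : ∀ t, g 1 0 * sf g (σ t) < 0 := by
    intro t
    by_contra h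
    have hc : Continuous fun t => g 1 0 * sf g (σ t) := continuous_const.mul (sf_cont g σ)
    obtain ⟨s, hs1⟩ := mem_range_of_exists_le_of_exists_ge hc (c := 0)
      ⟨t₀, hneg0.le⟩ ⟨t, not_lt.1 h⟩
    exact (mul_ne_zero hg (hs s)) hs1
  -- growth
  have hgrow : ∀ M : ℝ, ∃ n : ℕ, M ≤ (σ (t₀ + n)).im ∨ M ≤ |(σ (t₀ + n)).re| := by
    intro M
    have hstep : ∀ n : ℕ, t₀ + ((n + 1 : ℕ) : ℝ) = (t₀ + n) + 1 := by
      intro n
      push_cast
      ring
    rcases eq_or_lt_of_le hμ with h1 | h1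
    · have hsq : a 0 0 ^ 2 = 1 := by
        rw [← sq_abs, ← h1, one_pow]
      have hb : a 0 1 ≠ 0 := by
        intro hb
        apply ha
        rw [show (1 : ℍ ≃ₜ ℍ) = mh 1 from (map_one _).symm, mh_eq_iff]
        have hsq2 : a 0 0 * a 0 0 = 1 := by rw [← pow_two]; exact hsq
        rcases mul_self_eq_one_iff.1 hsq2 with h | h
        · left
          have h11 : a 1 1 = 1 := by rw [h] at hd; linarith
          ext i j
          fin_cases i <;> fin_cases j <;> simp [h, hb, h10, h11]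
        · right
          have h11 : a 1 1 = -1 := by rw [h] at hd; linarith
          ext i j
          fin_cases i <;> fin_cases j <;> simp [h, hb, h10, h11]
      have hn : ∀ n : ℕ, (σ (t₀ + n)).re = (σ t₀).re + n * (a 0 0 * a 0 1) := by
        intro n
        induction n with
        | zero => simp
        | succ n ih =>
          rw [hstep, hre, ih]
          push_cast
          linear_combination ((σ t₀).re + n * (a 0 0 * a 0 1)) * hsq
      have hbm : a 0 0 * a 0 1 ≠ 0 := by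
        apply mul_ne_zero _ hb
        intro h0
        rw [h0] at hsq
        norm_num at hsq
      obtain ⟨n, hn2⟩ := exists_nat_ge ((M + |(σ t₀).re|) / |a 0 0 * a 0 1|)
      refine ⟨n, Or.inr ?_⟩
      rw [hn]
      have hpos : 0 < |a 0 0 * a 0 1| := abs_pos.2 hbm
      rw [div_le_iff₀ hpos] at hn2
      have h3 : |(n : ℝ) * (a 0 0 * a 0 1)| = n * |a 0 0 * a 0 1| := by
        rw [abs_mul, Nat.abs_cast]
      have h4 := abs_sub_abs_le_abs_sub ((n : ℝ) * (a 0 0 * a 0 1)) (-(σ t₀).re)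
      rw [abs_neg, sub_neg_eq_add, h3, add_comm ((n : ℝ) * (a 0 0 * a 0 1))] at h4
      linarith
    · have hn : ∀ n : ℕ, (σ (t₀ + n)).im = (a 0 0 ^ 2) ^ n * (σ t₀).im := by
        intro n
        induction n with
        | zero => simp
        | succ n ih =>
          rw [hstep, him, ih]
          ring
      have h2 : 1 < a 0 0 ^ 2 := by
        rw [← sq_abs]
        nlinarith
      obtain ⟨n, hn2⟩ := pow_unbounded_of_one_lt (M / (σ t₀).im) h2
      refine ⟨n, Or.inl ?_⟩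
      rw [hn]
      rw [div_lt_iff₀ (σ t₀).im_pos] at hn2
      exact hn2.le
  set c := g 1 0 with hcdef
  set e := c * (g 1 1 - g 0 0) with hedef
  set f := c * g 0 1 with hfdef
  have hc2 : 0 < c ^ 2 := by positivity
  set M : ℝ := 1 + (e ^ 2 / (2 * c ^ 2) + |f|) * 2 / c ^ 2 with hM
  have hM1 : 1 ≤ M := by
    rw [hM]
    have : 0 ≤ (e ^ 2 / (2 * c ^ 2) + |f|) * 2 / c ^ 2 := by positivity
    linarith
  obtain ⟨n, hn⟩ := hgrow M
  have hlast := hall (t₀ + n)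
  unfold sf at hlast
  generalize (σ (t₀ + n)).re = X at *
  have hY0 : 0 < (σ (t₀ + n)).im := (σ (t₀ + n)).im_pos
  generalize (σ (t₀ + n)).im = Y at *
  have hR : M ≤ X ^ 2 + Y ^ 2 := by
    have hMM : M ≤ M ^ 2 := by nlinarith
    rcases hn with h | h
    · nlinarith [sq_nonneg X]
    · have : M ^ 2 ≤ X ^ 2 := by
        rw [← sq_abs X]
        exact pow_le_pow_left₀ (by linarith) h 2
      nlinarith [sq_nonneg Y]
  have hq : 0 ≤ c ^ 2 / 2 * X ^ 2 + e * X + e ^ 2 / (2 * c ^ 2) := by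
    have : c ^ 2 / 2 * X ^ 2 + e * X + e ^ 2 / (2 * c ^ 2) = (c ^ 2 * X + e) ^ 2 / (2 * c ^ 2) := by
      field_simp
      ring
    rw [this]
    positivity
  have hM2 : c ^ 2 / 2 * M = c ^ 2 / 2 + (e ^ 2 / (2 * c ^ 2) + |f|) := by
    rw [hM]
    field_simp
  have hR2 : c ^ 2 / 2 * M ≤ c ^ 2 / 2 * (X ^ 2 + Y ^ 2) :=
    mul_le_mul_of_nonneg_left hR (by positivity)
  have hf := le_abs_self f
  have hfin : c * (c * (X ^ 2 + Y ^ 2) + (g 1 1 - g 0 0) * X - g 0 1) =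
      c ^ 2 / 2 * (X ^ 2 + Y ^ 2) + c ^ 2 / 2 * Y ^ 2 + (c ^ 2 / 2 * X ^ 2 + e * X) - f := by
    rw [hedef, hfdef]
    ring
  rw [hfin] at hlast
  have : 0 ≤ c ^ 2 / 2 * Y ^ 2 := by positivity
  linarith

theorem goalSPC : GoalSPC := by
  intro g a v σ ha hv hq hσ hs t
  obtain ⟨hv0, μ, hμ, e1, e2⟩ := hv
  have hN : 0 < v.1 ^ 2 + v.2 ^ 2 := by
    by_contra h
    apply hv0
    have h1 : v.1 = 0 := by nlinarith [sq_nonneg v.1, sq_nonneg v.2]
    have h2 : v.2 = 0 := by nlinarith [sq_nonneg v.1, sq_nonneg v.2]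
    exact Prod.ext h1 h2
  set N := v.1 ^ 2 + v.2 ^ 2 with hNdef
  let k : SL(2, ℝ) := ⟨!![v.1, -v.2 / N; v.2, v.1 / N], by
    rw [Matrix.det_fin_two]
    simp
    field_simp
    rw [hNdef]
    ring⟩
  have k00 : k 0 0 = v.1 := rfl
  have k01 : k 0 1 = -v.2 / N := rfl
  have k10 : k 1 0 = v.2 := rfl
  have k11 : k 1 1 = v.1 / N := rfl
  have hqk : qf g v = qf (k⁻¹ * g * k) (1, 0) := by
    rw [← qf_smul k (k⁻¹ * g * k) (1, 0)]
    rw [k00, k01, k10, k11]
    have h1 : k * (k⁻¹ * g * k) * k⁻¹ = g := by group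
    rw [h1]
    simp
  have hq1 : qf (k⁻¹ * g * k) (1, 0) = (k⁻¹ * g * k) 1 0 := by
    simp [qf]
  have hconj : k * (k⁻¹ * g * k) * k⁻¹ = g := by group
  have hma : mh (k⁻¹ * a * k) ≠ 1 := by
    intro h
    apply ha
    have h2 : mh (k * (k⁻¹ * a * k) * k⁻¹) = 1 := by
      rw [map_mul, map_mul, h, mul_one, ← map_mul, mul_inv_cancel, map_one]
    have h3 : k * (k⁻¹ * a * k) * k⁻¹ = a := by group
    rwa [h3] at h2
  have ha10 : (k⁻¹ * a * k) 1 0 = 0 := by
    simp only [Matrix.SpecialLinearGroup.coe_mul, Matrix.SpecialLinearGroup.coe_inv,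
      Matrix.adjugate_fin_two, Matrix.mul_apply, Fin.sum_univ_two, Matrix.of_apply,
      Matrix.cons_val', Matrix.cons_val_zero, Matrix.cons_val_one, Matrix.cons_val_fin_one,
      k00, k01, k10, k11]
    linear_combination (-v.2) * e1 + v.1 * e2
  have ha00 : (k⁻¹ * a * k) 0 0 = μ := by
    simp only [Matrix.SpecialLinearGroup.coe_mul, Matrix.SpecialLinearGroup.coe_inv,
      Matrix.adjugate_fin_two, Matrix.mul_apply, Fin.sum_univ_two, Matrix.of_apply,
      Matrix.cons_val', Matrix.cons_val_zero, Matrix.cons_val_one, Matrix.cons_val_fin_one,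
      k00, k01, k10, k11]
    have h3 : v.1 / N * v.1 + v.2 / N * v.2 = 1 := by
      field_simp
      rw [hNdef]
    linear_combination (v.1 / N) * e1 + (v.2 / N) * e2 + μ * h3
  have hsf : ∀ t, ∃ r : ℝ, 0 < r ∧ sf g (σ t) = r * sf (k⁻¹ * g * k) (k⁻¹ • σ t) := by
    intro t
    obtain ⟨r, hr, h1⟩ := sf_smul_pos k (k⁻¹ * g * k) (k⁻¹ • σ t)
    rw [hconj, smul_inv_smul] at h1
    exact ⟨r, hr, h1⟩
  have hb := base (k⁻¹ * g * k) (k⁻¹ * a * k)
    ⟨fun t => k⁻¹ • σ t, (mh k⁻¹).continuous.comp σ.continuous⟩ hma ha10 (by rw [ha00]; exact hμ)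
    (by rw [← hq1, ← hqk]; exact hq)
    (fun t => by
      change k⁻¹ • σ (t + 1) = (k⁻¹ * a * k) • k⁻¹ • σ t
      rw [hσ t, mul_smul, mul_smul, smul_inv_smul])
    (fun t => by
      intro h0
      obtain ⟨r, hr, h1⟩ := hsf t
      apply hs t
      rw [h1]
      change sf (k⁻¹ * g * k) (k⁻¹ • σ t) = 0 at h0
      rw [h0, mul_zero]) t
  obtain ⟨r, hr, h1⟩ := hsf t
  change 0 < (k⁻¹ * g * k) 1 0 * sf (k⁻¹ * g * k) (k⁻¹ • σ t) at hb
  rw [hqk, hq1, h1]
  calc 0 < r * ((k⁻¹ * g * k) 1 0 * sf (k⁻¹ * g * k) (k⁻¹ • σ t)) := mul_pos hr hb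
    _ = _ := by ring

end Pool.Agent.Helper15.LN
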